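import Pool.Agent.H23.CMC.Targets

/-!
# MP_52e316_nt, board `cm4_modules`: row G_FM2
-/

set_option autoImplicit false

open NumberField MeasureTheory Set Filter Complex
open scoped nonZeroDivisors Real
open Pool.Agent.H23.CMC
open Pool.Agent.H65.CM4 (Sq nm dg Pl rv)
open Pool.Agent.H65.CMC (Emb ty PrTo IsHk ms IsLk gg GM cG Km Idx cdc Fmc lc)
open Pool.Agent.H23.CM4 (nJ Jd Nr wB)
open Pool.Agent.H23.LC (HG ag)

namespace Pool.Agent.H64.CMC

theorem pf_FM2 (hFM3 : T_FM3c) (hFX : T_FXc) (hDCX : T_DCX) : T_FM2c := by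
  classical
  intro k _ _ _ ε hε
  obtain ⟨C1, A, hC1, h1⟩ := hFM3 k ε hε
  refine ⟨2 * C1, A, by positivity, ?_⟩
  have key : ∀ n : ℕ, ∀ (X : ℝ) (ι : Type) (K : ι → Type) [∀ i, Field (K i)]
      [∀ i, NumberField (K i)] [∀ i, Algebra k (K i)] (Φ : ∀ i, Pl k → K i →+* ℂ)
      (S : Finset (Idx K)) (f : Idx K → Ideal (𝓞 k)) (m : Idx K → Pl k → ℤ) (F : Idx K → ℂ → ℂ)
      (t : Idx K → ℝ), 1 ≤ X → X ≤ 4 ^ n → Fmc k K Φ S f m F 0 X →
      ∑ p ∈ S, (‖F p (1 / 2 + t p * I)‖ / (1 + |t p| + ms (m p)) ^ A) ^ 4 ≤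
        2 * C1 * X ^ (3 / 2 + ε) := by
    intro n
    induction n with
    | zero =>
      intro X ι K _ _ _ Φ S f m F t hX hXm hS
      rw [pow_zero] at hXm
      have hX1 : X = 1 := le_antisymm hXm hX
      subst hX1
      have hfx := hFX k ι K Φ S f m F 0 1 hS
      have hS' : Fmc k K Φ S f m F (1 / 4) 1 := by
        refine hfx.2 S (1 / 4) 1 m (Finset.Subset.refl S) fun x hx => ⟨rfl, ?_, ?_⟩
        · have h2 := (hfx.1 x hx).2.2.2.1
          linarith
        · exact (hfx.1 x hx).2.2.2.2.1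
      have h := h1 1 ι K Φ S f m F t le_rfl hS'
      rw [Real.one_rpow] at h ⊢
      linarith
    | succ n ih =>
      intro X ι K _ _ _ Φ S f m F t hX hXm hS
      have hX0 : 0 < X := by linarith
      have hXp : 0 ≤ X ^ (3 / 2 + ε) := (Real.rpow_pos_of_pos hX0 _).le
      have hfx := hFX k ι K Φ S f m F 0 X hS
      rw [← Finset.sum_filter_add_sum_filter_not S (fun p => X / 4 ≤ cdc k f p)]
      have e1 : ∑ p ∈ S.filter (fun p => X / 4 ≤ cdc k f p),
          (‖F p (1 / 2 + t p * I)‖ / (1 + |t p| + ms (m p)) ^ A) ^ 4 ≤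
          C1 * X ^ (3 / 2 + ε) := by
        refine h1 X ι K Φ _ f m F t hX (hfx.2 _ (X / 4) X m (Finset.filter_subset _ _)
          fun x hx => ⟨rfl, (Finset.mem_filter.1 hx).2, ?_⟩)
        exact (hfx.1 x (Finset.mem_filter.1 hx).1).2.2.2.2.1
      have e2 : ∑ p ∈ S.filter (fun p => ¬ X / 4 ≤ cdc k f p),
          (‖F p (1 / 2 + t p * I)‖ / (1 + |t p| + ms (m p)) ^ A) ^ 4 ≤
          C1 * X ^ (3 / 2 + ε) / 2 := by
        by_cases hX4 : X < 4
        · have hempty : S.filter (fun p => ¬ X / 4 ≤ cdc k f p) = ∅ := by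
            apply Finset.filter_eq_empty_iff.2
            intro p hp hcon
            have hpos : (1 : ℝ) ≤ cdc k f p := (hfx.1 p hp).2.2.2.1
            apply hcon
            linarith
          rw [hempty, Finset.sum_empty]
          positivity
        · push Not at hX4
          have hX' : 1 ≤ X / 4 := by linarith
          have h := ih (X / 4) ι K Φ (S.filter (fun p => ¬ X / 4 ≤ cdc k f p)) f m F t hX' (by
            rw [pow_succ] at hXm
            linarith) (hfx.2 _ 0 (X / 4) m (Finset.filter_subset _ _) fun x hx => ⟨rfl, by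
              have h2 := (hfx.1 x (Finset.mem_filter.1 hx).1).2.2.2.1
              linarith, by
              have h2 := (Finset.mem_filter.1 hx).2
              push Not at h2
              exact h2.le⟩)
          refine h.trans ?_
          rw [Real.div_rpow hX0.le (by norm_num)]
          have h4 : (4 : ℝ) ≤ 4 ^ (3 / 2 + ε) := by
            calc (4 : ℝ) = 4 ^ (1 : ℝ) := (Real.rpow_one 4).symm
              _ ≤ 4 ^ (3 / 2 + ε) := Real.rpow_le_rpow_of_exponent_le (by norm_num) (by linarith)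
          have h5 : X ^ (3 / 2 + ε) / 4 ^ (3 / 2 + ε) ≤ X ^ (3 / 2 + ε) / 4 :=
            div_le_div_of_nonneg_left hXp (by norm_num) h4
          have h6 := mul_le_mul_of_nonneg_left h5 (by positivity : (0 : ℝ) ≤ 2 * C1)
          linarith
      have h7 : 0 ≤ C1 * X ^ (3 / 2 + ε) := mul_nonneg hC1.le hXp
      linarith
  intro X ι K _ _ _ Φ S f m F t hX hS
  obtain ⟨n, hn⟩ := pow_unbounded_of_one_lt X (by norm_num : (1 : ℝ) < 4)
  exact key n X ι K Φ S f m F t hX hn.le hS

end Pool.Agent.H64.CMC
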